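import Pool.Agent.W851.BE.Stm

/-!
Project BE, part ZT: basic facts on the points `ζ_{a,t}`.
-/

set_option autoImplicit false

open Polynomial Topology Filter MeasureTheory

namespace Pool.Agent.W790.BE

open Pool.Agent.W95.BK Pool.Agent.W851.BE

universe u

theorem eq_of_lam (h : S_VAL.{u}) (K : Type u) [NontriviallyNormedField K] [IsAlgClosed K]
    (x y : BA K) (hxy : ∀ b, lam x b = lam y b) : x = y := by
  apply BA.ext
  intro f
  rw [h K x f, h K y f]
  simp only [hxy]

theorem main : S_VAL.{u} → S_GLAM.{u} → S_ZT.{u} := by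
  intro hV hG K _ _ _
  have hG2 : ∀ (a b : K) (r : ℝ) (hr : 0 < r), lam (gauss a r hr) b = max ‖a - b‖ r :=
    fun a b r hr => (hG K a b).2 r hr
  refine ⟨?_, ?_, ?_, ?_⟩
  · intro a a' t t' ht ht'
    rw [zt_pos a ht, zt_pos a' ht']
    constructor
    · intro h
      have h1 : (gauss a t ht : BA K) = gauss a' t' ht' := OnePoint.coe_injective h
      have h2 := congrArg (fun x => lam x a) h1
      have h3 := congrArg (fun x => lam x a') h1
      simp only [hG2, sub_self, norm_zero] at h2 h3
      rw [max_eq_right ht.le] at h2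
      rw [max_eq_right ht'.le] at h3
      have h4 : t' ≤ t := by rw [h2]; exact le_max_right _ _
      have h5 : t ≤ t' := by rw [← h3]; exact le_max_right _ _
      have h6 : t = t' := le_antisymm h5 h4
      refine ⟨h6, ?_⟩
      rw [h6]
      calc ‖a - a'‖ ≤ max ‖a - a'‖ t := le_max_left _ _
        _ = t' := h3
    · rintro ⟨rfl, h⟩
      congr 1
      apply eq_of_lam hV
      intro b
      rw [hG2, hG2]
      have h1 : ‖a - b‖ ≤ max ‖a' - b‖ t := by
        calc ‖a - b‖ = ‖(a - a') + (a' - b)‖ := by congr 1; ring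
          _ ≤ max ‖a - a'‖ ‖a' - b‖ := IsUltrametricDist.norm_add_le_max _ _
          _ ≤ max ‖a' - b‖ t := max_le (h.trans (le_max_right _ _)) (le_max_left _ _)
      have h2 : ‖a' - b‖ ≤ max ‖a - b‖ t := by
        calc ‖a' - b‖ = ‖(a' - a) + (a - b)‖ := by congr 1; ring
          _ ≤ max ‖a' - a‖ ‖a - b‖ := IsUltrametricDist.norm_add_le_max _ _
          _ ≤ max ‖a - b‖ t := by
            rw [norm_sub_rev a' a]
            exact max_le (h.trans (le_max_right _ _)) (le_max_left _ _)
      exact le_antisymm (max_le h1 (le_max_right _ _)) (max_le h2 (le_max_right _ _))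
  · intro a
    rw [continuousOn_iff_continuous_domRestrict]
    have e : Set.domRestrict (Set.Ioi (0 : ℝ)) (fun t => zt a t) =
        fun t : Set.Ioi (0 : ℝ) => ((gauss a t.1 t.2 : BA K) : P1B K) := by
      funext t
      exact zt_pos a t.2
    rw [e]
    refine OnePoint.continuous_coe.comp ?_
    refine continuous_induced_rng.2 ?_
    refine continuous_pi fun f => ?_
    have h3 : ∀ (t : ℝ) (ht : 0 < t), (gauss a t ht : BA K) f = ‖f.leadingCoeff‖ *
        (f.roots.map (fun w => max ‖a - w‖ t)).prod := by
      intro t ht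
      have := hV K (gauss a t ht) f
      simp only [hG2] at this
      exact this
    have e2 : (fun t : Set.Ioi (0 : ℝ) => ((fun x : BA K => x.toFun) ∘
        fun t : Set.Ioi (0 : ℝ) => gauss a t.1 t.2) t f) =
        fun t : Set.Ioi (0 : ℝ) => ‖f.leadingCoeff‖ *
          (f.roots.map (fun w => max ‖a - w‖ t.1)).prod := by
      funext t
      exact h3 t.1 t.2
    rw [e2]
    refine continuous_const.mul ?_
    refine continuous_multiset_prod _ fun w _ => ?_
    exact continuous_const.max continuous_subtype_val
  · intro a t h c hc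
    have h1 := congrArg (fun x => lam x c) hc
    simp only [hG2, (hG K c c).1, sub_self, norm_zero] at h1
    have : t ≤ max ‖a - c‖ t := le_max_right _ _
    linarith
  · intro a t x ht hx
    rw [zt_pos a ht]
    congr 1
    apply eq_of_lam hV
    intro b
    rw [hx b, hG2]

end Pool.Agent.W790.BE
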